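import Mathlib

set_option autoImplicit false

namespace Pool.Agent.H341R2.EC

open IsDedekindDomain

/-- an element whose `n`-th power is a quotient of `v`-units is a quotient of `v`-units -/
theorem exists_frac {R K : Type*} [CommRing R] [IsDomain R] [IsDedekindDomain R] [Field K]
    [Algebra R K] [IsFractionRing R K] (v : HeightOneSpectrum R) (u : K) (x y : R)
    (hx : x ∉ v.asIdeal) (hy : y ∉ v.asIdeal) {n : ℕ} (hn : 0 < n)
    (h : u ^ n * algebraMap R K y = algebraMap R K x) :
    ∃ a c : R, a ∉ v.asIdeal ∧ c ∉ v.asIdeal ∧ u * algebraMap R K c = algebraMap R K a := by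
  have hle : v.asIdeal.primeCompl ≤ nonZeroDivisors R := v.asIdeal.primeCompl_le_nonZeroDivisors
  let A := Localization.AtPrime v.asIdeal
  letI : Algebra A K := IsLocalization.localizationAlgebraOfSubmonoidLe A K v.asIdeal.primeCompl
    (nonZeroDivisors R) hle
  haveI : IsScalarTower R A K := IsLocalization.localization_isScalarTower_of_submonoid_le A K
    v.asIdeal.primeCompl (nonZeroDivisors R) hle
  haveI : IsFractionRing A K := IsFractionRing.isFractionRing_of_isDomain_of_isLocalization
    v.asIdeal.primeCompl A K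
  haveI : IsIntegrallyClosed A := inferInstance
  have hyK : algebraMap R K y ≠ 0 := by
    rw [Ne, FaithfulSMul.algebraMap_eq_zero_iff]
    rintro rfl
    exact hy (v.asIdeal.zero_mem)
  have h1 : u ^ n = algebraMap A K (IsLocalization.mk' A x (⟨y, hy⟩ : v.asIdeal.primeCompl)) := by
    have h2 := IsLocalization.mk'_spec A x (⟨y, hy⟩ : v.asIdeal.primeCompl)
    have h3 := congrArg (algebraMap A K) h2
    rw [map_mul, ← IsScalarTower.algebraMap_apply, ← IsScalarTower.algebraMap_apply] at h3
    apply mul_right_cancel₀ hyK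
    rw [h]
    exact h3.symm
  obtain ⟨z, hz⟩ := IsIntegrallyClosed.exists_algebraMap_eq_of_isIntegral_pow (R := A) (K := K) hn
    (x := u) (by rw [h1]; exact isIntegral_algebraMap)
  obtain ⟨⟨a, c⟩, hac⟩ := IsLocalization.surj v.asIdeal.primeCompl z
  simp only at hac
  have h4 : u * algebraMap R K c = algebraMap R K a := by
    have := congrArg (algebraMap A K) hac
    rw [map_mul, hz, ← IsScalarTower.algebraMap_apply, ← IsScalarTower.algebraMap_apply] at this
    exact this
  refine ⟨a, c, ?_, c.2, h4⟩
  intro ha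
  have h5 : a ^ n * y = x * (c : R) ^ n := by
    apply IsFractionRing.injective R K
    rw [map_mul, map_mul, map_pow, map_pow, ← h4, mul_pow, ← h]
    ring
  have h6 : x * (c : R) ^ n ∈ v.asIdeal := by
    rw [← h5]
    exact v.asIdeal.mul_mem_right _ (Ideal.pow_mem_of_mem _ ha _ hn)
  rcases v.isPrime.mem_or_mem h6 with h7 | h7
  · exact hx h7
  · exact c.2 (v.isPrime.mem_of_pow_mem _ h7)

end Pool.Agent.H341R2.EC
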