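import Pool.Agent.H341R2.NF.SysK

/-! Quadratic extensions of a number field: counting homomorphisms to prime fields. -/

set_option autoImplicit false

namespace Pool.Agent.H341R2

open NumberField Polynomial
open Pool.Agent.H921R2.TatePole (hc restrict_injective extend_hom)

section
variable {K : Type} [Field K] [NumberField K]

/-- the quadratic polynomial `X² - d` -/
noncomputable def qpoly (d : 𝓞 K) : K[X] := X ^ 2 - C (d : K)

theorem qpoly_irreducible {d : 𝓞 K} (hd : ¬ IsSquare (d : K)) : Irreducible (qpoly d) := by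
  unfold qpoly
  have := (X_pow_sub_C_irreducible_iff_of_prime Nat.prime_two (a := (d : K))).2
  apply this
  intro b hb
  exact hd ⟨b, by rw [← hb, sq]⟩

/-- the field `K(√d)` -/
abbrev QF (d : 𝓞 K) : Type := AdjoinRoot (qpoly d)

variable {d : 𝓞 K}

theorem qpoly_monic : (qpoly d).Monic := monic_X_pow_sub_C _ two_ne_zero

theorem qpoly_natDegree : (qpoly d).natDegree = 2 := natDegree_X_pow_sub_C

omit [NumberField K] in
theorem eval₂_qpoly {S : Type*} [CommRing S] (g : K →+* S) (x : S) :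
    eval₂ g x (qpoly d) = x ^ 2 - g (d : K) := by
  unfold qpoly
  rw [eval₂_sub, eval₂_pow, eval₂_X, eval₂_C]

variable [Fact (Irreducible (qpoly d))]

instance : FiniteDimensional K (QF d) :=
  (AdjoinRoot.powerBasis (qpoly_monic (d := d)).ne_zero).finite

instance : CharZero (QF d) := charZero_of_injective_algebraMap (algebraMap K (QF d)).injective

instance : NumberField (QF d) where
  to_charZero := inferInstance
  to_finiteDimensional := by
    exact FiniteDimensional.trans ℚ K (QF d)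

/-- the square root of `d` -/
noncomputable def rt (d : 𝓞 K) : QF d := AdjoinRoot.root (qpoly d)

theorem rt_sq : (rt d) ^ 2 = algebraMap K (QF d) (d : K) := by
  have h := AdjoinRoot.eval₂_root (qpoly d)
  rw [eval₂_qpoly] at h
  exact sub_eq_zero.1 h

theorem decomp (α : QF d) : ∃ a b : K, α = algebraMap K (QF d) a + algebraMap K (QF d) b * rt d := by
  obtain ⟨g, rfl⟩ := AdjoinRoot.mk_surjective α
  set r := g %ₘ qpoly d with hr
  have hdeg : r.natDegree ≤ 1 := by
    have := natDegree_modByMonic_lt g qpoly_monic (q := qpoly d) (by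
      intro h
      have h2 := qpoly_natDegree (d := d)
      rw [h, natDegree_one] at h2
      omega)
    rw [qpoly_natDegree, ← hr] at this
    omega
  obtain ⟨b, a, hab⟩ := exists_eq_X_add_C_of_natDegree_le_one hdeg
  refine ⟨a, b, ?_⟩
  have h1 : AdjoinRoot.mk (qpoly d) g = AdjoinRoot.mk (qpoly d) r := by
    rw [AdjoinRoot.mk_eq_mk]
    have := modByMonic_add_div g (qpoly d)
    refine ⟨g /ₘ qpoly d, ?_⟩
    rw [← hr] at this
    rw [sub_eq_iff_eq_add, add_comm]
    exact this.symm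
  rw [h1, hab, map_add, map_mul, AdjoinRoot.mk_C, AdjoinRoot.mk_X, AdjoinRoot.mk_C, add_comm]
  rfl

theorem indep {a b : K} (h : algebraMap K (QF d) a + algebraMap K (QF d) b * rt d = 0) :
    a = 0 ∧ b = 0 := by
  have h1 : AdjoinRoot.mk (qpoly d) (C b * X + C a) = 0 := by
    rw [map_add, map_mul, AdjoinRoot.mk_C, AdjoinRoot.mk_X, AdjoinRoot.mk_C, add_comm]
    exact h
  rw [AdjoinRoot.mk_eq_zero] at h1
  have h2 : (C b * X + C a : K[X]) = 0 := by
    apply eq_zero_of_dvd_of_natDegree_lt h1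
    rw [qpoly_natDegree]
    exact (natDegree_linear_le).trans_lt (by norm_num)
  constructor
  · have := congrArg (fun q => coeff q 0) h2
    simpa using this
  · have := congrArg (fun q => coeff q 1) h2
    simpa using this

/-- the conjugation of `K(√d)` -/
noncomputable def cnj (d : 𝓞 K) [Fact (Irreducible (qpoly d))] : QF d →ₐ[K] QF d :=
  AdjoinRoot.liftAlgHom (qpoly d) (Algebra.ofId K (QF d)) (-(rt d)) (by
    rw [eval₂_qpoly, neg_sq, rt_sq]
    exact sub_self _)

theorem cnj_rt : cnj d (rt d) = - rt d := by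
  unfold cnj
  exact AdjoinRoot.liftAlgHom_root (qpoly d) _ _ _

theorem rt_integral : IsIntegral ℤ (rt d) := by
  have h1 : IsIntegral ℤ ((rt d) ^ 2) := by
    rw [rt_sq]
    exact (RingOfIntegers.isIntegral_coe d).map (algebraMap K (QF d)).toIntAlgHom
  exact IsIntegral.of_pow (by norm_num : 0 < 2) h1

/-- the square root of `d` as an algebraic integer -/
noncomputable def rtO (d : 𝓞 K) [Fact (Irreducible (qpoly d))] : 𝓞 (QF d) :=
  ⟨rt d, rt_integral⟩

theorem rtO_sq : (rtO d) ^ 2 = algebraMap (𝓞 K) (𝓞 (QF d)) d := by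
  apply RingOfIntegers.ext
  exact rt_sq

/-- `2d 𝓞_L ⊆ 𝓞_K + 𝓞_K √d` -/
theorem int_decomp (α : 𝓞 (QF d)) : ∃ u v : 𝓞 K,
    algebraMap (𝓞 K) (𝓞 (QF d)) (2 * d) * α =
      algebraMap (𝓞 K) (𝓞 (QF d)) u + algebraMap (𝓞 K) (𝓞 (QF d)) v * rtO d := by
  obtain ⟨a, b, hab⟩ := decomp (α : QF d)
  have hα : IsIntegral ℤ (α : QF d) := RingOfIntegers.isIntegral_coe α
  have hα' : IsIntegral ℤ (cnj d (α : QF d)) := hα.map ((cnj d).toRingHom.toIntAlgHom)
  have hc : cnj d (α : QF d) = algebraMap K (QF d) a - algebraMap K (QF d) b * rt d := by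
    rw [hab, map_add, map_mul, cnj_rt, AlgHom.commutes, AlgHom.commutes]
    ring
  have h1 : IsIntegral ℤ (2 * a) := by
    rw [← isIntegral_algebraMap_iff (algebraMap K (QF d)).injective]
    have : algebraMap K (QF d) (2 * a) = (α : QF d) + cnj d (α : QF d) := by
      rw [hc, hab, map_mul, map_ofNat]
      ring
    rw [this]
    exact hα.add hα'
  have h2 : IsIntegral ℤ (2 * b * d) := by
    rw [← isIntegral_algebraMap_iff (algebraMap K (QF d)).injective]
    have : algebraMap K (QF d) (2 * b * d) = ((α : QF d) - cnj d (α : QF d)) * rt d := by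
      rw [hc, hab, map_mul, map_mul, map_ofNat, ← rt_sq]
      ring
    rw [this]
    exact (hα.sub hα').mul rt_integral
  refine ⟨d * ⟨2 * a, h1⟩, ⟨2 * b * d, h2⟩, ?_⟩
  apply RingOfIntegers.ext
  change algebraMap K (QF d) ((2 : K) * (d : K)) * (α : QF d) =
    algebraMap K (QF d) ((d : K) * (2 * a)) + algebraMap K (QF d) (2 * b * d) * rt d
  rw [hab]
  simp only [map_mul, map_ofNat]
  ring

/-- the integer `N₀` -/
noncomputable def N0 (d : 𝓞 K) : ℤ := 2 * (Ideal.absNorm (Ideal.span {d}) : ℤ)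

omit [Fact (Irreducible (qpoly d))] in
theorem N0_ne_zero (hd : d ≠ 0) : N0 d ≠ 0 := by
  unfold N0
  have : Ideal.absNorm (Ideal.span {d}) ≠ 0 := by
    rw [Ne, Ideal.absNorm_eq_zero_iff, Ideal.span_singleton_eq_bot]
    exact hd
  have h2 : (Ideal.absNorm (Ideal.span {d}) : ℤ) ≠ 0 := by exact_mod_cast this
  exact mul_ne_zero two_ne_zero h2

omit [Fact (Irreducible (qpoly d))] in
theorem dvd_N0 (d : 𝓞 K) : ∃ c : 𝓞 K, (N0 d : 𝓞 K) = c * (2 * d) := by
  have h := Ideal.absNorm_mem (Ideal.span {d})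
  rw [Ideal.mem_span_singleton] at h
  obtain ⟨c, hc⟩ := h
  refine ⟨c, ?_⟩
  unfold N0
  push_cast
  rw [hc]
  ring

/-- evaluation at `√d` -/
noncomputable def ev (d : 𝓞 K) [Fact (Irreducible (qpoly d))] : (𝓞 K)[X] →+* 𝓞 (QF d) :=
  eval₂RingHom (algebraMap (𝓞 K) (𝓞 (QF d))) (rtO d)

theorem ev_surj (b : 𝓞 (QF d)) : ∃ a : (𝓞 K)[X], ev d a = (N0 d : 𝓞 (QF d)) * b := by
  obtain ⟨u, v, huv⟩ := int_decomp b
  obtain ⟨c, hc⟩ := dvd_N0 d
  refine ⟨C (c * u) + C (c * v) * X, ?_⟩
  have h1 : (N0 d : 𝓞 (QF d)) = algebraMap (𝓞 K) (𝓞 (QF d)) c *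
      algebraMap (𝓞 K) (𝓞 (QF d)) (2 * d) := by
    rw [← map_mul, ← hc, map_intCast]
  rw [h1, mul_assoc, huv]
  simp only [ev, coe_eval₂RingHom, eval₂_add, eval₂_mul, eval₂_C, eval₂_X, map_mul]
  ring

theorem ker_ev (g : (𝓞 K)[X]) (hg : ev d g = 0) : (X ^ 2 - C d : (𝓞 K)[X]) ∣ g := by
  set q : (𝓞 K)[X] := X ^ 2 - C d with hq
  have hqm : q.Monic := monic_X_pow_sub_C _ two_ne_zero
  have hqd : q.natDegree = 2 := natDegree_X_pow_sub_C
  have hq1 : q ≠ 1 := by
    intro h
    rw [h, natDegree_one] at hqd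
    omega
  set r := g %ₘ q with hr
  have hdeg : r.natDegree ≤ 1 := by
    have := natDegree_modByMonic_lt g hqm hq1
    rw [hqd, ← hr] at this
    omega
  obtain ⟨b, a, hab⟩ := exists_eq_X_add_C_of_natDegree_le_one hdeg
  have hevq : ev d q = 0 := by
    rw [hq]
    simp only [ev, coe_eval₂RingHom, eval₂_sub, eval₂_pow, eval₂_X, eval₂_C]
    rw [rtO_sq, sub_self]
  have h1 : ev d r = 0 := by
    have := modByMonic_add_div g q
    rw [← this, map_add, map_mul, hevq, zero_mul, add_zero] at hg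
    exact hg
  rw [hab] at h1
  simp only [ev, coe_eval₂RingHom, eval₂_add, eval₂_mul, eval₂_C, eval₂_X] at h1
  have h2 := congrArg (fun z : 𝓞 (QF d) => (z : QF d)) h1
  have h3 : algebraMap K (QF d) (a : K) + algebraMap K (QF d) (b : K) * rt d = 0 := by
    rw [add_comm]
    exact h2
  obtain ⟨h4, h5⟩ := indep h3
  have h6 : a = 0 := RingOfIntegers.ext h4
  have h7 : b = 0 := RingOfIntegers.ext h5
  rw [← modByMonic_eq_zero_iff_dvd hqm, ← hr, hab, h6, h7]
  simp

/-- homomorphisms from the ring of integers of `K(√d)` -/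
theorem hom_bijective {p : ℕ} [Fact p.Prime] (hp : ¬ (p : ℤ) ∣ N0 d) :
    Function.Bijective (fun ψ : 𝓞 (QF d) →+* ZMod p =>
      (⟨ψ.comp (algebraMap (𝓞 K) (𝓞 (QF d))), ⟨ψ (rtO d), by
        rw [← map_pow, rtO_sq]; rfl⟩⟩ :
        (φ : 𝓞 K →+* ZMod p) × {r : ZMod p // r ^ 2 = φ d})) := by
  constructor
  · intro ψ ψ' h
    simp only [Sigma.mk.injEq] at h
    obtain ⟨h1, h2⟩ := h
    apply restrict_injective (ev d) ev_surj hp
    apply Polynomial.ringHom_ext
    · intro a
      have := RingHom.congr_fun h1 a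
      simpa [ev] using this
    · have h3 : ψ (rtO d) = ψ' (rtO d) := by
        have h4 : ∀ (φ φ' : 𝓞 K →+* ZMod p) (x : {r : ZMod p // r ^ 2 = φ d})
            (y : {r : ZMod p // r ^ 2 = φ' d}), φ = φ' → HEq x y → (x : ZMod p) = y := by
          rintro φ φ' x y rfl h
          rw [eq_of_heq h]
        exact h4 _ _ _ _ h1 h2
      simpa [ev] using h3
  · rintro ⟨φ, r, hr⟩
    obtain ⟨ψ, hψ⟩ := extend_hom (ev d) ev_surj hp (eval₂RingHom φ r) (by
      intro g hg
      rw [RingHom.mem_ker] at hg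
      obtain ⟨h, rfl⟩ := ker_ev g hg
      rw [RingHom.mem_ker, map_mul]
      simp [hr])
    have h1 : ψ.comp (algebraMap (𝓞 K) (𝓞 (QF d))) = φ := by
      ext a
      have := RingHom.congr_fun hψ (C a)
      simpa [ev] using this
    have h2 : ψ (rtO d) = r := by
      have := RingHom.congr_fun hψ X
      simpa [ev] using this
    refine ⟨ψ, ?_⟩
    simp only
    subst h1
    congr 1
    exact Subtype.ext h2

theorem hc_quad {p : ℕ} [Fact p.Prime] (hp : ¬ (p : ℤ) ∣ N0 d) [Fintype (𝓞 K →+* ZMod p)] :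
    (hc (𝓞 (QF d)) p : ℤ) = ∑ φ : 𝓞 K →+* ZMod p, (quadraticChar (ZMod p) (φ d) + 1) := by
  classical
  have hp2 : ringChar (ZMod p) ≠ 2 := by
    rw [ZMod.ringChar_zmod_n]
    rintro rfl
    exact hp ⟨(Ideal.absNorm (Ideal.span {d}) : ℤ), rfl⟩
  unfold hc
  rw [Nat.card_congr (Equiv.ofBijective _ (hom_bijective (d := d) hp)), Nat.card_eq_fintype_card,
    Fintype.card_sigma]
  push_cast
  apply Finset.sum_congr rfl
  intro φ _
  rw [← quadraticChar_card_sqrts hp2 (φ d), Set.toFinset_card]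
  congr 1

end

end Pool.Agent.H341R2
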